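import Pool.Agent.Y303.EJ.W
import Pool.Agent.Y936.EJ.RF

/-!
Project EJ: Parseval against fields in `L²`.
-/

open Set Filter Topology MeasureTheory Metric

set_option autoImplicit false

namespace Pool.Agent.Y151.EJ

open Pool.Agent.Y5 (E3)
open Pool.Agent.Y303.SK Pool.Agent.Y303.EJ
open Pool.Agent.Y328.SK (memLp_cs)
open Pool.Agent.Y936.EJ (L2 toL toL_inner EE orthonormal_EE Sp mem_of_inH exists_basis)

theorem bessel {Ω : Set E3} {ι : Type} {e : ι → E3 → E3} {σ : ι → ι} {s : ι → ℝ}
    (h : SkewD Ω e σ s) {g : E3 → E3} (hg : MemLp g 2 volume) (F : Finset ι) :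
    ∑ i ∈ F, ipr g (e i) ^ 2 ≤ ipr g g := by
  have h1 := (orthonormal_EE h).sum_inner_products_le (toL g) (s := F)
  have h2 : ‖toL g‖ ^ 2 = ipr g g := by
    rw [← real_inner_self_eq_norm_sq, toL_inner hg hg]
  rw [h2] at h1
  refine le_trans (le_of_eq (Finset.sum_congr rfl fun i _ => ?_)) h1
  rw [Real.norm_eq_abs, sq_abs, real_inner_comm]
  unfold EE
  rw [toL_inner hg (memLp_cs (h.field i))]

theorem t_W3 : S_W3 := by
  intro Ω ι e σ s _ _ _ h g v hg hv
  constructor
  · obtain ⟨b, hb⟩ := exists_basis h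
    have : CompleteSpace (Sp e).topologicalClosure :=
      (Submodule.isClosed_topologicalClosure _).completeSpace_coe
    obtain ⟨x, hx⟩ : ∃ x : (Sp e).topologicalClosure, (x : L2) = toL v :=
      ⟨⟨toL v, mem_of_inH h hv⟩, rfl⟩
    have h1 := (Sp e).topologicalClosure.subtypeL.hasSum (b.hasSum_repr x)
    have h2 := (innerSL ℝ (toL g)).hasSum h1
    have h3 : (innerSL ℝ (toL g)) ((Sp e).topologicalClosure.subtypeL x) = ipr g v := by
      rw [innerSL_apply_apply, ← toL_inner hg hv.1, ← hx]
      rfl
    rw [h3] at h2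
    have h4 : (fun i => ipr g (e i) * ipr v (e i)) = fun i =>
        (innerSL ℝ (toL g)) ((Sp e).topologicalClosure.subtypeL (b.repr x i • b i)) := by
      funext i
      rw [map_smul, map_smul, smul_eq_mul, innerSL_apply_apply, b.repr_apply_apply]
      have e1 : inner ℝ (b i) x = ipr v (e i) := by
        rw [← toL_inner hv.1 (memLp_cs (h.field i)), ← hx, real_inner_comm]
        change _ = inner ℝ (x : L2) (EE e i)
        rw [← hb i]
        rfl
      have e2 : inner ℝ (toL g) ((Sp e).topologicalClosure.subtypeL (b i)) = ipr g (e i) := by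
        rw [← toL_inner hg (memLp_cs (h.field i))]
        change inner ℝ (toL g) ((b i : (Sp e).topologicalClosure) : L2) = inner ℝ (toL g) (EE e i)
        rw [hb i]
      rw [e1, e2, mul_comm]
    rw [h4]
    exact h2
  · intro F
    rw [← Real.sqrt_mul (by
      unfold ipr
      exact integral_nonneg fun x => real_inner_self_nonneg)]
    apply Real.abs_le_sqrt
    refine (Finset.sum_mul_sq_le_sq_mul_sq F _ _).trans ?_
    exact mul_le_mul (bessel h hg F) (bessel h hv.1 F)
      (Finset.sum_nonneg fun i _ => sq_nonneg _) (by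
        unfold ipr
        exact integral_nonneg fun x => real_inner_self_nonneg)

end Pool.Agent.Y151.EJ
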